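import Mathlib
import Pool.Agent.H.MP_4d1f21_nt.Q
import Pool.Agent.H.MP_74870a_nt.A

open Finset Polynomial

namespace Pool.Agent.Results.MP_74870a_nt.Yes

noncomputable def q : RatFunc ℚ := RatFunc.X

noncomputable def poch (a b : RatFunc ℚ) (k : ℕ) : RatFunc ℚ := ∏ j ∈ range k, (1 - a * b ^ j)

noncomputable def R (n t : ℕ) : RatFunc ℚ :=
  poch q (q ^ 2) ((n ^ t - 1) / 4) * poch (q ^ (2 * n)) (q ^ (2 * n)) ((n ^ (t - 1) - 1) / 4) /
    (poch (q ^ 2) (q ^ 2) ((n ^ t - 1) / 4) * poch (q ^ n) (q ^ (2 * n)) ((n ^ (t - 1) - 1) / 4))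

open Pool.Agent.H.MP_4d1f21_nt Pool.Agent.H.MP_74870a_nt

theorem pow4 {n : ℕ} (hn : n % 4 = 1) (t : ℕ) : n ^ t % 4 = 1 := by
  rw [Nat.pow_mod, hn]; simp

theorem qne {j : ℕ} (hj : 0 < j) : 1 - q ^ j ≠ 0 := by
  have h : (1 - X ^ j : ℚ[X]) ≠ 0 := by
    intro h
    have := congrArg (eval 0) h
    simp [hj.ne'] at this
  have h2 : 1 - q ^ j = algebraMap ℚ[X] (RatFunc ℚ) (1 - X ^ j) := by simp [q]
  rw [h2]
  exact fun h0 => h (IsFractionRing.injective ℚ[X] (RatFunc ℚ) (by rw [h0, map_zero]))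

theorem hdiv {n t : ℕ} (hn : n % 4 = 1) (ht : 0 < t) :
    2 * ((n ^ t - 1) / 4) / n = 2 * ((n ^ (t - 1) - 1) / 4) := by
  obtain ⟨t, rfl⟩ : ∃ u, t = u + 1 := ⟨t - 1, by omega⟩
  have h1 := pow4 hn t
  obtain ⟨a, ha⟩ : ∃ a, n ^ t = 4 * a + 1 := ⟨n ^ t / 4, by omega⟩
  obtain ⟨b, hb⟩ : ∃ b, n = 4 * b + 1 := ⟨n / 4, by omega⟩
  have e1 : n ^ (t + 1) = 4 * (n * a + b) + 1 := by rw [pow_succ, ha]; nlinarith
  rw [Nat.add_sub_cancel, e1, ha]
  have e2 : 2 * ((4 * (n * a + b) + 1 - 1) / 4) = 2 * b + n * (2 * a) := by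
    rw [show (4 * (n * a + b) + 1 - 1) / 4 = n * a + b by omega]; ring
  rw [e2, Nat.add_mul_div_left _ _ (by omega), Nat.div_eq_of_lt (by omega)]
  omega

theorem R_eq {n t : ℕ} (hn : n % 4 = 1) (ht : 0 < t) :
    R n t = Np q n 1 (2 * ((n ^ t - 1) / 4)) * (Np q n 0 (2 * ((n ^ t - 1) / 4)))⁻¹ := by
  have hP : ∀ p T, Pp (q ^ n) p T ≠ 0 := by
    intro p T
    refine prod_ne_zero_iff.2 fun j _ => ?_
    split_ifs
    · rw [← pow_mul]; exact qne (Nat.mul_pos (by omega) (by omega))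
    · exact one_ne_zero
  have e : q ^ (2 * n) = (q ^ n) ^ 2 := by ring
  rw [R, poch, poch, poch, poch, e, ← Pp_one, ← Pp_zero, ← Pp_one, ← Pp_zero,
    Pp_split q (n := n) (by omega) 1, Pp_split q (n := n) (by omega) 0, hdiv hn ht]
  have h0 := hP 0 (2 * ((n ^ (t - 1) - 1) / 4))
  have h1 := hP 1 (2 * ((n ^ (t - 1) - 1) / 4))
  by_cases h : Np q n 0 (2 * ((n ^ t - 1) / 4)) = 0
  · simp [h]
  · field_simp

theorem relN (P : ℚ[X]) (n p T : ℕ) : Rel P (Np q n p T) (Np (AdjoinRoot.root P) n p T) := by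
  refine Rel.prod _ fun j _ => ?_
  split_ifs
  · exact Rel.one.sub (Rel.X.pow _)
  · exact Rel.one

theorem result (n r s : ℕ) (hn : n % 4 = 1) (h1 : 1 < n) (hs : 0 < s) (hrs : s < r) :
    cyclotomic (n ^ s) ℚ ^ 2 ∣ (R n r - R n s).num ∧
      IsCoprime (R n r - R n s).denom (cyclotomic (n ^ s) ℚ ^ 2) := by
  have hM0 : 0 < n ^ s := by positivity
  have := nontriv (n := n ^ s) (e := 2) hM0 (by omega)
  set x := AdjoinRoot.root (cyclotomic (n ^ s) ℚ ^ 2) with hx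
  have hnM : n ∣ n ^ s := dvd_pow_self n hs.ne'
  have hu : ∀ T, IsUnit (Np x n 0 T) := by
    intro T
    refine IsUnit.prod_iff.2 fun j _ => ?_
    split_ifs with h
    · exact unit_root 2 hM0 fun h' => h.2 (hnM.trans h')
    · exact isUnit_one
  have a1 := pow4 hn s
  have a2 := pow4 hn (r - s)
  obtain ⟨c, hc⟩ : ∃ c, n ^ (r - s) = 4 * c + 1 := ⟨n ^ (r - s) / 4, by omega⟩
  have a3 : n ^ r = 4 * (c * n ^ s) + n ^ s := by
    rw [show r = (r - s) + s by omega, pow_add, hc]; ring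
  have a4 : 2 * ((n ^ r - 1) / 4) = 2 * c * n ^ s + 2 * ((n ^ s - 1) / 4) := by
    rw [mul_assoc]; omega
  have hm := main x n (n ^ s) (2 * ((n ^ s - 1) / 4)) c (by omega) (by omega) hnM (by omega)
    (by rw [hdiv hn hs]; omega) (eps_pow _ 2)
  rw [← a4] at hm
  obtain ⟨u, hu1⟩ := (hu (2 * ((n ^ r - 1) / 4))).exists_right_inv
  obtain ⟨v, hv1⟩ := (hu (2 * ((n ^ s - 1) / 4))).exists_right_inv
  apply Rel.fin
  rw [R_eq hn hs, R_eq hn (by omega)]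
  have h := ((relN _ n 1 (2 * ((n ^ r - 1) / 4))).mul ((relN _ n 0 _).inv hu1)).sub
    ((relN _ n 1 (2 * ((n ^ s - 1) / 4))).mul ((relN _ n 0 _).inv hv1))
  convert h using 1
  linear_combination (-(u * v)) * hm + (Np x n 1 (2 * ((n ^ r - 1) / 4)) * u) * hv1
    - (Np x n 1 (2 * ((n ^ s - 1) / 4)) * v) * hu1

end Pool.Agent.Results.MP_74870a_nt.Yes
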